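import Pool.Agent.Lib.MP_d610d0_nt.CH.S.Stm

set_option autoImplicit false

/-!
# MP_6b8fc7_nt, section G: the linear sieve for a general density, definitions

The sieve functions `th`, the sets of primes `Pr`, `OP` and the supersolutions `SS`, `Sm` are those of
`Lib/MP_d610d0_nt/CH/S`; here the density `1 / (p - 1)` is replaced by an arbitrary density `g` with
`0 ≤ g p ≤ 2 / p`, and Mertens' inequality is needed only up to a bound `Y`.
-/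

namespace Pool.Agent.PSq

open Finset
open Pool.Agent.CH.S (Pr OP th SS Sm)

/-- The densities which are considered. -/
def Dg (g : ℕ → ℝ) : Prop := ∀ p : ℕ, p.Prime → 3 ≤ p → 0 ≤ g p ∧ g p ≤ 2 / (p : ℝ)

/-- `V(a, w) = ∏_{a ≤ p < w} (1 - g p)`. -/
noncomputable def Vg (g : ℕ → ℝ) (a w : ℕ) : ℝ := ∏ p ∈ Pr a w, (1 - g p)

/-- Mertens' inequality with error `ε` from `a` up to `Y`. -/
def MerG (g : ℕ → ℝ) (ε : ℝ) (a : ℕ) (Y : ℝ) : Prop := ∀ n : ℕ, a ≤ n → ∀ w : ℝ, (n : ℝ) ≤ w →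
  w ≤ Y → Real.log n ≤ (1 + ε) * Vg g n ⌈w⌉₊ * Real.log w

/-- The upper bound claim at `(D, w)`. -/
def UpG (g : ℕ → ℝ) (u : ℝ → ℝ) (a : ℕ) (w D : ℝ) : Prop :=
  th a g ⌈w⌉₊ true D ≤ Vg g a ⌈w⌉₊ * (1 + u (Real.log D / Real.log w))

/-- The lower bound claim at `(D, w)`. -/
def LoG (g : ℕ → ℝ) (l : ℝ → ℝ) (a : ℕ) (w D : ℝ) : Prop :=
  Vg g a ⌈w⌉₊ * (1 - l (Real.log D / Real.log w)) ≤ th a g ⌈w⌉₊ false D

end Pool.Agent.PSq
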