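import Pool.Agent.Lib.MP_6b8fc7_nt.G.Defs
import Pool.Agent.Lib.MP_d610d0_nt.CH.S.P.abel
import Pool.Agent.Lib.MP_d610d0_nt.CH.S.P.exp
import Pool.Agent.Lib.MP_d610d0_nt.CH.S.P.eps

set_option autoImplicit false

/-!
# The linear sieve for a general density (adapted from `Lib/MP_d610d0_nt/CH/S/P`)
-/

namespace Pool.Agent.PSq

open Finset
open Pool.Agent.CH.S (Pr OP th SS Sm S_abel S_exp p_abel p_exp S_eps p_eps)


theorem mem_Pr (a w p : ℕ) : p ∈ Pr a w ↔ p < w ∧ p.Prime ∧ a ≤ p := by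
  simp [Pr]

private theorem g_fac {g : ℕ → ℝ} (hg : Dg g) {p : ℕ} (hpp : p.Prime) (hp : 3 ≤ p) :
    0 ≤ g p ∧ 0 < 1 - g p ∧ 1 - g p ≤ 1 := by
  have h : (3 : ℝ) ≤ (p : ℝ) := by exact_mod_cast hp
  obtain ⟨h0, h1⟩ := hg p hpp hp
  have h2 : 2 / (p : ℝ) < 1 := by
    rw [div_lt_one (by linarith)]; linarith
  exact ⟨h0, by linarith, by linarith⟩

theorem Vg_succ (g : ℕ → ℝ) (a n : ℕ) :
    Vg g a (n + 1) = Vg g a n - (if n.Prime ∧ a ≤ n then g n * Vg g a n else 0) := by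
  unfold Vg Pr
  rw [Finset.range_add_one, Finset.filter_insert]
  by_cases h : n.Prime ∧ a ≤ n
  · rw [if_pos h, if_pos h, Finset.prod_insert (by simp)]
    ring
  · rw [if_neg h, if_neg h]
    ring

theorem Vg_sum (g : ℕ → ℝ) (a : ℕ) (w : ℕ) :
    ∑ p ∈ Pr a w, g p * Vg g a p = 1 - Vg g a w := by
  induction w with
  | zero => simp [Pr, Vg]
  | succ n ih =>
    rw [Vg_succ]
    have h0 : Pr a (n + 1) = if n.Prime ∧ a ≤ n then insert n (Pr a n) else Pr a n := by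
      unfold Pr
      rw [Finset.range_add_one, Finset.filter_insert]
    rw [h0]
    by_cases h : n.Prime ∧ a ≤ n
    · rw [if_pos h, if_pos h, Finset.sum_insert (by simp [Pr]), ih]
      ring
    · rw [if_neg h, if_neg h, ih]
      ring

theorem Vg_pos {g : ℕ → ℝ} (hg : Dg g) {a : ℕ} (ha : 3 ≤ a) (w : ℕ) :
    0 < Vg g a w ∧ Vg g a w ≤ 1 := by
  constructor
  · unfold Vg
    refine Finset.prod_pos fun p hp => ?_
    rw [mem_Pr] at hp
    exact (g_fac hg hp.2.1 (le_trans ha hp.2.2)).2.1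
  · unfold Vg
    refine Finset.prod_le_one (fun p hp => ?_) (fun p hp => ?_)
    · rw [mem_Pr] at hp
      exact (g_fac hg hp.2.1 (le_trans ha hp.2.2)).2.1.le
    · rw [mem_Pr] at hp
      exact (g_fac hg hp.2.1 (le_trans ha hp.2.2)).2.2

theorem Vg_mul (g : ℕ → ℝ) (a n m : ℕ) (hn : a ≤ n) (hm : n ≤ m) :
    Vg g a m = Vg g a n * Vg g n m := by
  unfold Vg
  rw [← Finset.prod_union]
  · refine Finset.prod_congr ?_ (fun _ _ => rfl)
    ext p
    simp only [mem_Pr, Finset.mem_union]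
    constructor
    · rintro ⟨h1, h2, h3⟩
      by_cases h : p < n
      · exact Or.inl ⟨h, h2, h3⟩
      · exact Or.inr ⟨h1, h2, by omega⟩
    · rintro (⟨h1, h2, h3⟩ | ⟨h1, h2, h3⟩)
      · exact ⟨by omega, h2, h3⟩
      · exact ⟨h1, h2, by omega⟩
  · rw [Finset.disjoint_left]
    intro p hp hq
    rw [mem_Pr] at hp hq
    omega


private theorem g_ps_Pr (a m : ℕ) (G : ℕ → ℝ) :
    ∑ p ∈ Pr a m, G p = ∑ n ∈ Ico a m, (if n.Prime ∧ a ≤ n then G n else 0) := by
  rw [← Finset.sum_filter]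
  apply Finset.sum_congr _ (fun _ _ => rfl)
  ext n
  unfold Pr
  simp only [mem_filter, mem_range, mem_Ico]
  constructor
  · rintro ⟨h1, h2, h3⟩
    exact ⟨⟨h3, h1⟩, h2, h3⟩
  · rintro ⟨⟨h3, h1⟩, h2, -⟩
    exact ⟨h1, h2, h3⟩

private theorem g_ps_tele (a m : ℕ) (ham : a ≤ m) (G : ℕ → ℝ) :
    ∑ n ∈ Ico a m, (G (n + 1) - G n) = G m - G a := by
  rw [Finset.sum_Ico_sub G ham]

theorem g_ps {g : ℕ → ℝ} (hg : Dg g) (a : ℕ) (w D ε Y : ℝ) (φ I : ℝ → ℝ) (ha : 3 ≤ a)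
    (haw : (a : ℝ) ≤ w) (hwY : w ≤ Y) (hwD : w ≤ D) (hε : 0 ≤ ε) (hMer : MerG g ε a Y)
    (hanti : ∀ x y, Real.log D / Real.log w - 1 ≤ x → x ≤ y → φ y ≤ φ x)
    (hnn : ∀ x, Real.log D / Real.log w - 1 ≤ x → 0 ≤ φ x)
    (hint : ∀ x y, Real.log D / Real.log w - 1 ≤ x → x ≤ y → (y - x) * φ y ≤ I x - I y)
    (hInn : ∀ x, Real.log D / Real.log w - 1 ≤ x → 0 ≤ I x) :
    ∑ p ∈ Pr a ⌈w⌉₊, g p * Vg g a p * φ (Real.log D / Real.log p - 1)
      ≤ Vg g a ⌈w⌉₊ * ((1 + ε) * (1 / (Real.log D / Real.log w)) * I (Real.log D / Real.log w - 1)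
        + ε * φ (Real.log D / Real.log w - 1)) := by
  have ha3 : (3 : ℝ) ≤ a := by exact_mod_cast ha
  have hw3 : (3 : ℝ) ≤ w := le_trans ha3 haw
  have hw0 : 0 < w := by linarith
  have hlw : 0 < Real.log w := Real.log_pos (by linarith)
  have hlD : Real.log w ≤ Real.log D := Real.log_le_log hw0 hwD
  have hlD0 : 0 < Real.log D := by linarith
  have hV := Vg_pos hg ha
  have hVmul := Vg_mul g a
  have hVst := Vg_succ g a
  set m := ⌈w⌉₊ with hm
  set s := Real.log D / Real.log w with hs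
  have hs1 : 1 ≤ s := by
    rw [hs, le_div_iff₀ hlw]; linarith
  have hs0 : 0 < s := by linarith
  have ham : a ≤ m := by
    have : (a : ℝ) ≤ (m : ℝ) := le_trans haw (Nat.le_ceil w)
    exact_mod_cast this
  have hVm : 0 < Vg g a m := (hV m).1
  -- logs
  have hlog : ∀ n : ℕ, a ≤ n → 0 < Real.log n := by
    intro n hn
    apply Real.log_pos
    have : (a : ℝ) ≤ n := by exact_mod_cast hn
    linarith
  have hlt : ∀ n : ℕ, n < m → (n : ℝ) < w := fun n hn => Nat.lt_ceil.1 hn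
  have hts : ∀ n : ℕ, a ≤ n → n < m → s ≤ Real.log D / Real.log n := by
    intro n hn hnm
    rw [hs]
    apply div_le_div_of_nonneg_left hlD0.le (hlog n hn)
    apply Real.log_le_log _ (hlt n hnm).le
    have : (a : ℝ) ≤ n := by exact_mod_cast hn
    linarith
  have htt : ∀ n : ℕ, a ≤ n → Real.log D / Real.log ((n + 1 : ℕ) : ℝ) ≤ Real.log D / Real.log n := by
    intro n hn
    apply div_le_div_of_nonneg_left hlD0.le (hlog n hn)
    apply Real.log_le_log
    · have : (a : ℝ) ≤ n := by exact_mod_cast hn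
      linarith
    · push_cast; linarith
  let T : ℕ → ℝ := fun n => if n < m then Real.log D / Real.log n else s
  have hT1 : ∀ n, n < m → T n = Real.log D / Real.log n := fun n hn => if_pos hn
  have hTm : T m = s := if_neg (lt_irrefl m)
  have hTs : ∀ n, a ≤ n → s ≤ T n := by
    intro n hn
    by_cases h : n < m
    · rw [hT1 n h]; exact hts n hn h
    · exact (if_neg h : T n = s).ge
  have hTT : ∀ n, a ≤ n → n < m → T (n + 1) ≤ T n := by
    intro n hn hnm
    by_cases h : n + 1 < m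
    · rw [hT1 n hnm, hT1 (n + 1) h]; exact htt n hn
    · have h' : T (n + 1) = s := if_neg h
      rw [h']; exact hTs n hn
  let Us : ℕ → ℝ := fun n => (1 + ε) * Vg g a m * (1 / s) * T n
  have hVU : ∀ n, a ≤ n → n ≤ m → Vg g a n ≤ Us n := by
    intro n hn hnm
    show Vg g a n ≤ (1 + ε) * Vg g a m * (1 / s) * T n
    rcases hnm.lt_or_eq with h | h
    · rw [hT1 n h, hVmul n m hn hnm]
      have hM := hMer n hn w (hlt n h).le hwY
      rw [← hm] at hM
      have e1 : (1 + ε) * (Vg g a n * Vg g n m) * (1 / s) * (Real.log D / Real.log n) =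
          Vg g a n * ((1 + ε) * Vg g n m * Real.log w / Real.log n) := by
        rw [hs]
        have := (hlog n hn).ne'
        field_simp
      rw [e1]
      apply le_mul_of_one_le_right (hV n).1.le
      rw [le_div_iff₀ (hlog n hn), one_mul]
      exact hM
    · rw [h, hTm]
      have e1 : (1 + ε) * Vg g a m * (1 / s) * s = (1 + ε) * Vg g a m := by field_simp
      rw [e1]
      nlinarith
  let f : ℕ → ℝ := fun n => φ (Real.log D / Real.log n - 1)
  have hF0 : 0 ≤ φ (s - 1) := hnn _ le_rfl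
  have hab := p_abel a m (Vg g a) Us f (φ (s - 1)) ham hVU
    (by
      intro n hn hnm
      show φ (Real.log D / Real.log n - 1) ≤ φ (Real.log D / Real.log ((n + 1 : ℕ) : ℝ) - 1)
      apply hanti
      · have := hts (n + 1) (by omega) hnm
        linarith
      · have := htt n hn
        linarith)
    (by
      intro n hn hnm
      apply hnn
      have := hts n hn hnm
      linarith)
    (by
      intro n hn hnm
      apply hanti _ _ le_rfl
      have := hts n hn hnm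
      linarith) hF0
  -- the left side
  have hL : ∑ p ∈ Pr a m, g p * Vg g a p * φ (Real.log D / Real.log p - 1) =
      ∑ n ∈ Ico a m, (Vg g a n - Vg g a (n + 1)) * f n := by
    rw [g_ps_Pr a m (fun p => g p * Vg g a p * φ (Real.log D / Real.log p - 1))]
    apply Finset.sum_congr rfl
    intro n _
    rw [hVst n]
    show _ = (Vg g a n - (Vg g a n - (if n.Prime ∧ a ≤ n then g n * Vg g a n else 0))) *
      φ (Real.log D / Real.log n - 1)
    split_ifs
    · ring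
    · ring
  rw [hL]
  refine le_trans hab ?_
  have hR : ∑ n ∈ Ico a m, (Us n - Us (n + 1)) * f n ≤ (1 + ε) * Vg g a m * (1 / s) * I (s - 1) := by
    have hc : 0 ≤ (1 + ε) * Vg g a m * (1 / s) := by positivity
    have h1 : ∑ n ∈ Ico a m, (Us n - Us (n + 1)) * f n ≤
        ∑ n ∈ Ico a m, (1 + ε) * Vg g a m * (1 / s) * (I (T (n + 1) - 1) - I (T n - 1)) := by
      apply Finset.sum_le_sum
      intro n hn
      rw [mem_Ico] at hn
      have e1 : (Us n - Us (n + 1)) * f n =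
          (1 + ε) * Vg g a m * (1 / s) * (((T n - 1) - (T (n + 1) - 1)) * φ (T n - 1)) := by
        show ((1 + ε) * Vg g a m * (1 / s) * T n - (1 + ε) * Vg g a m * (1 / s) * T (n + 1)) *
          φ (Real.log D / Real.log n - 1) = _
        rw [← hT1 n hn.2]
        ring
      rw [e1]
      apply mul_le_mul_of_nonneg_left _ hc
      apply hint
      · have := hTs (n + 1) (by omega)
        linarith
      · have := hTT n hn.1 hn.2
        linarith
    refine le_trans h1 ?_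
    rw [← Finset.mul_sum, g_ps_tele a m ham (fun n => I (T n - 1))]
    apply mul_le_mul_of_nonneg_left _ hc
    show I (T m - 1) - I (T a - 1) ≤ I (s - 1)
    rw [hTm]
    have := hInn (T a - 1) (by have := hTs a le_rfl; linarith)
    linarith
  have hU : Us m - Vg g a m = ε * Vg g a m := by
    show (1 + ε) * Vg g a m * (1 / s) * T m - Vg g a m = _
    rw [hTm]
    field_simp
    ring
  rw [hU]
  calc _ ≤ (1 + ε) * Vg g a m * (1 / s) * I (s - 1) + ε * Vg g a m * φ (s - 1) := by linarith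
    _ = _ := by ring


theorem g_stL {g : ℕ → ℝ} (hg : Dg g) {u l U L : ℝ → ℝ} {K : ℝ} (hSS : SS u l U L K) {S ε : ℝ}
    (hSm : Sm u l U L S ε) (a : ℕ) (w D Y : ℝ) (ha : 3 ≤ a) (hMer : MerG g ε a Y)
    (haw : (a : ℝ) ≤ w) (hwY : w ≤ Y) (hwD : w ^ 2 ≤ D) (hDS : Real.log D ≤ S * Real.log a)
    (hUp : ∀ p : ℕ, p.Prime → a ≤ p → (p : ℝ) < w → UpG g u a p (D / p)) : LoG g l a w D := by
  have ha3 : (3 : ℝ) ≤ a := by exact_mod_cast ha
  have hw3 : (3 : ℝ) ≤ w := le_trans ha3 haw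
  have hw0 : 0 < w := by linarith
  have hlw : 0 < Real.log w := Real.log_pos (by linarith)
  have hla : 0 < Real.log a := Real.log_pos (by linarith)
  have hwD1 : w ≤ D := by nlinarith
  have hD0 : 0 < D := by linarith
  have hlogD : 2 * Real.log w ≤ Real.log D := by
    have h := Real.log_le_log (by positivity : (0 : ℝ) < w ^ 2) hwD
    rw [Real.log_pow] at h
    exact_mod_cast h
  have hs2 : 2 ≤ Real.log D / Real.log w := by
    rw [le_div_iff₀ hlw]; exact hlogD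
  have hS0 : 0 < S := by
    by_contra h
    push Not at h
    nlinarith
  have hsS : Real.log D / Real.log w ≤ S := by
    rw [div_le_iff₀ hlw]
    refine le_trans hDS ?_
    exact mul_le_mul_of_nonneg_left (Real.log_le_log (by linarith) haw) hS0.le
  have hV := Vg_pos hg ha
  have hsum := Vg_sum g a
  unfold LoG
  set s := Real.log D / Real.log w with hs
  have hps1 := g_ps hg a w D ε Y u U ha haw hwY hwD1 hSm.pos.le hMer
    (fun x y hx hxy => hSS.u_anti x y (by linarith) hxy)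
    (fun x hx => (hSS.u_pos x (by linarith)).le)
    (fun x y hx hxy => hSS.U_int x y (by linarith) hxy)
    (fun x hx => hSS.U_nn x (by linarith))
  rw [← hs] at hps1
  have he1 := hSm.e1 s hs2 hsS
  have hps2 : ∑ p ∈ Pr a ⌈w⌉₊, g p * Vg g a p * u (Real.log D / Real.log p - 1)
      ≤ Vg g a ⌈w⌉₊ * l s :=
    le_trans hps1 (mul_le_mul_of_nonneg_left he1 (hV _).1.le)
  rw [p_exp a g ⌈w⌉₊ false D]
  have hle : ∑ p ∈ Pr a ⌈w⌉₊, (if (false = true → (p : ℝ) ^ 3 < D) then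
      g p * th a g p (!false) (D / p) else 0) ≤
      ∑ p ∈ Pr a ⌈w⌉₊, (g p * Vg g a p + g p * Vg g a p * u (Real.log D / Real.log p - 1)) := by
    apply Finset.sum_le_sum
    intro p hp
    rw [if_pos (fun h => absurd h (by decide))]
    unfold Pr at hp
    rw [mem_filter, mem_range] at hp
    obtain ⟨hpw, hpp, hap⟩ := hp
    have hpw' : (p : ℝ) < w := Nat.lt_ceil.1 hpw
    have hp3 : (3 : ℝ) ≤ p := by exact_mod_cast le_trans ha hap
    have hg0 : 0 ≤ g p := (hg p hpp (le_trans ha hap)).1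
    have h1 := hUp p hpp hap hpw'
    unfold UpG at h1
    rw [Nat.ceil_natCast, Real.log_div hD0.ne' (by linarith), sub_div,
      div_self (Real.log_pos (by linarith)).ne'] at h1
    calc g p * th a g p (!false) (D / p)
        ≤ g p * (Vg g a p * (1 + u (Real.log D / Real.log p - 1))) :=
          mul_le_mul_of_nonneg_left h1 hg0
      _ = _ := by ring
  rw [sum_add_distrib, hsum] at hle
  refine le_trans ?_ (sub_le_sub_left hle 1)
  have : Vg g a ⌈w⌉₊ * (1 - l s) = Vg g a ⌈w⌉₊ - Vg g a ⌈w⌉₊ * l s := by ring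
  linarith


private theorem g_stU3_mem {a : ℕ} {w : ℝ} {p : ℕ} (hp : p ∈ Pr a ⌈w⌉₊) :
    p.Prime ∧ a ≤ p ∧ (p : ℝ) < w := by
  unfold Pr at hp
  rw [Finset.mem_filter, Finset.mem_range] at hp
  exact ⟨hp.2.1, hp.2.2, Nat.lt_ceil.1 hp.1⟩

theorem g_stU3 {g : ℕ → ℝ} (hg : Dg g) {u l U L : ℝ → ℝ} {K : ℝ} (hSS : SS u l U L K) {S ε : ℝ}
    (hSm : Sm u l U L S ε) (a : ℕ) (w D Y : ℝ) (ha : 3 ≤ a) (hMer : MerG g ε a Y)
    (haw : (a : ℝ) ≤ w) (hwY : w ≤ Y) (hwD : w ^ 3 ≤ D) (hlogD : Real.log D ≤ S * Real.log a)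
    (hyp : ∀ p : ℕ, p.Prime → a ≤ p → (p : ℝ) < w → LoG g l a p (D / p)) : UpG g u a w D := by
  have hw3 : (3 : ℝ) ≤ w := le_trans (by exact_mod_cast ha) haw
  have ha3 : (3 : ℝ) ≤ (a : ℝ) := by exact_mod_cast ha
  have hlogw : 0 < Real.log w := Real.log_pos (by linarith)
  have hloga : 0 < Real.log a := Real.log_pos (by linarith)
  have hwleD : w ≤ D := by
    refine le_trans ?_ hwD
    nlinarith [mul_nonneg (by linarith : (0 : ℝ) ≤ w) (by linarith : (0 : ℝ) ≤ w)]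
  have hDpos : 0 < D := by linarith
  have hlogwa : Real.log a ≤ Real.log w := Real.log_le_log (by linarith) haw
  have hlog3 : 3 * Real.log w ≤ Real.log D := by
    have h := Real.log_le_log (by positivity) hwD
    rw [Real.log_pow] at h
    exact_mod_cast h
  have hSpos : 0 < S := by
    by_contra hcon
    have h1 : S * Real.log a ≤ 0 := mul_nonpos_of_nonpos_of_nonneg (not_lt.1 hcon) hloga.le
    linarith
  have hs3 : 3 ≤ Real.log D / Real.log w := by
    rw [le_div_iff₀ hlogw]; exact hlog3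
  have hsS : Real.log D / Real.log w ≤ S := by
    rw [div_le_iff₀ hlogw]
    exact le_trans hlogD (mul_le_mul_of_nonneg_left hlogwa hSpos.le)
  have hsum := g_ps hg a w D ε Y l L ha haw hwY hwleD hSm.pos.le hMer
    (fun x y hx hxy => hSS.l_anti x y (by linarith) hxy)
    (fun x hx => (hSS.l_pos x (by linarith)).le)
    (fun x y hx hxy => hSS.L_int x y (by linarith) hxy)
    (fun x hx => hSS.L_nn x (by linarith))
  have hV := Vg_pos hg ha
  have hT := Vg_sum g a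
  have he2 := hSm.e2 _ hs3 hsS
  unfold UpG
  rw [p_exp a g ⌈w⌉₊ true D]
  have hterm : ∑ p ∈ Pr a ⌈w⌉₊, (g p * Vg g a p - g p * Vg g a p * l (Real.log D / Real.log p - 1)) ≤
      ∑ p ∈ Pr a ⌈w⌉₊,
        (if (true = true → (p : ℝ) ^ 3 < D) then g p * th a g p (!true) (D / p) else 0) := by
    apply Finset.sum_le_sum
    intro p hp
    obtain ⟨hpp, hap, hpw⟩ := g_stU3_mem hp
    have hp3 : (3 : ℝ) ≤ (p : ℝ) := le_trans ha3 (by exact_mod_cast hap)
    have hcond : true = true → (p : ℝ) ^ 3 < D := by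
      intro _
      refine lt_of_lt_of_le ?_ hwD
      exact pow_lt_pow_left₀ hpw (by linarith) (by norm_num)
    rw [if_pos hcond]
    have hlo := hyp p hpp hap hpw
    unfold LoG at hlo
    rw [Nat.ceil_natCast] at hlo
    have hlogp : 0 < Real.log (p : ℝ) := Real.log_pos (by linarith)
    have hdiv : Real.log (D / p) / Real.log (p : ℝ) = Real.log D / Real.log (p : ℝ) - 1 := by
      rw [Real.log_div (by linarith) (by linarith)]
      field_simp
    rw [hdiv] at hlo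
    have hg0 : 0 ≤ g p := (hg p hpp (le_trans ha hap)).1
    have := mul_le_mul_of_nonneg_left hlo hg0
    calc g p * Vg g a p - g p * Vg g a p * l (Real.log D / Real.log p - 1)
        = g p * (Vg g a p * (1 - l (Real.log D / Real.log p - 1))) := by ring
      _ ≤ g p * th a g p false (D / p) := this
      _ = g p * th a g p (!true) (D / p) := rfl
  rw [Finset.sum_sub_distrib, hT] at hterm
  have hVm := (hV ⌈w⌉₊).1
  have hfin : Vg g a ⌈w⌉₊ * ((1 + ε) * (1 / (Real.log D / Real.log w)) *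
      L (Real.log D / Real.log w - 1) + ε * l (Real.log D / Real.log w - 1)) ≤
      Vg g a ⌈w⌉₊ * u (Real.log D / Real.log w) := mul_le_mul_of_nonneg_left he2 hVm.le
  have hr : Vg g a ⌈w⌉₊ * (1 + u (Real.log D / Real.log w)) =
      Vg g a ⌈w⌉₊ + Vg g a ⌈w⌉₊ * u (Real.log D / Real.log w) := by ring
  rw [hr]
  linarith


private theorem g_stU1_mem (a w p : ℕ) : p ∈ Pr a w ↔ p < w ∧ p.Prime ∧ a ≤ p := by
  rw [Pr, mem_filter, mem_range]

private theorem g_stU1_case1 (g : ℕ → ℝ) (a m : ℕ) (D : ℝ) (h : D ≤ (a : ℝ) ^ 3) :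
    th a g m true D = 1 := by
  rw [p_exp a g m true D]
  have h0 : ∑ p ∈ Pr a m, (if (true = true → (p : ℝ) ^ 3 < D) then g p * th a g p (!true) (D / p)
      else 0) = 0 := by
    apply sum_eq_zero
    intro p hp
    rw [g_stU1_mem] at hp
    rw [if_neg]
    intro h1
    have h2 := h1 rfl
    have h3 : (a : ℝ) ≤ p := by exact_mod_cast hp.2.2
    have h4 : (a : ℝ) ^ 3 ≤ (p : ℝ) ^ 3 := pow_le_pow_left₀ (Nat.cast_nonneg a) h3 3
    linarith
  rw [h0, sub_zero]

private theorem g_stU1_case2 (g : ℕ → ℝ) (a m m' : ℕ) (D : ℝ) (hm : m' ≤ m)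
    (h : ∀ p : ℕ, m' ≤ p → D ≤ (p : ℝ) ^ 3) :
    th a g m true D = th a g m' true D := by
  rw [p_exp a g m true D, p_exp a g m' true D]
  congr 1
  symm
  apply sum_subset
  · intro p hp
    rw [g_stU1_mem] at hp ⊢
    exact ⟨lt_of_lt_of_le hp.1 hm, hp.2⟩
  · intro p hp hp'
    rw [g_stU1_mem] at hp hp'
    rw [if_neg]
    intro h1
    have h2 := h1 rfl
    have h3 : m' ≤ p := by
      by_contra hlt
      exact hp' ⟨by omega, hp.2⟩
    have := h p h3
    linarith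

theorem g_stU1 {g : ℕ → ℝ} (hg : Dg g) {u l U L : ℝ → ℝ} {K : ℝ} (hSS : SS u l U L K) {S ε : ℝ}
    (hSm : Sm u l U L S ε) (a : ℕ) (w D Y : ℝ) (ha : 3 ≤ a) (hMer : MerG g ε a Y)
    (haw : (a : ℝ) ≤ w) (hwY : w ≤ Y) (hwD : w ≤ D) (hD3 : D < w ^ 3)
    (hyp : ∀ w' : ℝ, (a : ℝ) ≤ w' → w' ≤ w → w' ^ 3 = D → UpG g u a w' D) : UpG g u a w D := by
  have hV := Vg_pos hg ha
  have hVmul := Vg_mul g a
  have ha3 : (3 : ℝ) ≤ a := by exact_mod_cast ha
  have hw3 : (3 : ℝ) ≤ w := le_trans ha3 haw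
  have hlw : 0 < Real.log w := Real.log_pos (by linarith)
  have hlwD : Real.log w ≤ Real.log D := Real.log_le_log (by linarith) hwD
  have hlD : 0 < Real.log D := lt_of_lt_of_le hlw hlwD
  have hlD3 : Real.log D ≤ 3 * Real.log w := by
    have h1 : Real.log D ≤ Real.log (w ^ 3) := Real.log_le_log (by linarith) hD3.le
    rw [Real.log_pow] at h1
    exact_mod_cast h1
  have hs1 : 1 ≤ Real.log D / Real.log w := by
    rw [le_div_iff₀ hlw]; linarith
  have hlD3' : Real.log D < 3 * Real.log w := by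
    have h1 : Real.log D < Real.log (w ^ 3) := Real.log_lt_log (by linarith) hD3
    rw [Real.log_pow] at h1
    exact_mod_cast h1
  have hs3 : Real.log D / Real.log w < 3 := by
    rw [div_lt_iff₀ hlw]; linarith
  have hmid := hSS.mid _ hs1 hs3
  have hu3 := hSS.u_pos 3 (by norm_num)
  have hK3 := hSS.K3
  have hε0 := hSm.pos
  have hε1 := hSm.le
  have hKpos : 0 < K := by nlinarith
  have hKs : K / (Real.log D / Real.log w) = K * Real.log w / Real.log D := by
    field_simp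
  rw [hKs] at hmid
  have hVm := hV ⌈w⌉₊
  have ham : a ≤ ⌈w⌉₊ := by
    have h1 : (a : ℝ) ≤ (⌈w⌉₊ : ℝ) := le_trans haw (Nat.le_ceil w)
    exact_mod_cast h1
  unfold UpG
  rcases le_or_gt D ((a : ℝ) ^ 3) with hc | hc
  · rw [g_stU1_case1 g a _ D hc]
    have h1 := hMer a le_rfl w haw hwY
    have hla : Real.log D ≤ 3 * Real.log a := by
      have h2 : Real.log D ≤ Real.log ((a : ℝ) ^ 3) := Real.log_le_log (by linarith) hc
      rw [Real.log_pow] at h2
      exact_mod_cast h2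
    have hK : 3 * (1 + ε) ≤ K := by nlinarith
    have hla0 : 0 < Real.log a := Real.log_pos (by linarith)
    have h3 : (1 + ε) * Real.log D ≤ (1 + ε) * (Vg g a ⌈w⌉₊ * K * Real.log w) := by
      calc (1 + ε) * Real.log D ≤ (1 + ε) * (3 * Real.log a) :=
            mul_le_mul_of_nonneg_left hla (by linarith)
        _ = 3 * (1 + ε) * Real.log a := by ring
        _ ≤ K * Real.log a := mul_le_mul_of_nonneg_right hK hla0.le
        _ ≤ K * ((1 + ε) * Vg g a ⌈w⌉₊ * Real.log w) := mul_le_mul_of_nonneg_left h1 hKpos.le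
        _ = _ := by ring
    have h4 : Real.log D ≤ Vg g a ⌈w⌉₊ * K * Real.log w := le_of_mul_le_mul_left h3 (by linarith)
    calc (1 : ℝ) ≤ Vg g a ⌈w⌉₊ * K * Real.log w / Real.log D := by
          rw [le_div_iff₀ hlD]; linarith
      _ = Vg g a ⌈w⌉₊ * (K * Real.log w / Real.log D) := by ring
      _ ≤ _ := mul_le_mul_of_nonneg_left hmid hVm.1.le
  · have hD0 : 0 < D := by linarith
    have hw'0 : 0 < D ^ (1 / 3 : ℝ) := Real.rpow_pos_of_pos hD0 _
    have hw'3 : (D ^ (1 / 3 : ℝ)) ^ 3 = D := by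
      rw [← Real.rpow_natCast, ← Real.rpow_mul hD0.le]
      norm_num
    generalize D ^ (1 / 3 : ℝ) = w' at hw'0 hw'3
    have haw' : (a : ℝ) ≤ w' := by
      by_contra hlt
      push Not at hlt
      have : w' ^ 3 < (a : ℝ) ^ 3 := pow_lt_pow_left₀ hlt hw'0.le (by norm_num)
      linarith
    have hw'w : w' ≤ w := by
      by_contra hlt
      push Not at hlt
      have : w ^ 3 < w' ^ 3 := pow_lt_pow_left₀ hlt (by linarith) (by norm_num)
      linarith
    have hmm : ⌈w'⌉₊ ≤ ⌈w⌉₊ := Nat.ceil_mono hw'w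
    have ham' : a ≤ ⌈w'⌉₊ := by
      have h1 : (a : ℝ) ≤ (⌈w'⌉₊ : ℝ) := le_trans haw' (Nat.le_ceil w')
      exact_mod_cast h1
    have hth : th a g ⌈w⌉₊ true D = th a g ⌈w'⌉₊ true D := by
      apply g_stU1_case2 g a _ _ D hmm
      intro p hp
      rw [← hw'3]
      apply pow_le_pow_left₀ hw'0.le
      exact Nat.ceil_le.1 hp
    have hup := hyp w' haw' hw'w hw'3
    unfold UpG at hup
    have hw'3' : (3 : ℝ) ≤ w' := le_trans ha3 haw'
    have hlw' : 0 < Real.log w' := Real.log_pos (by linarith)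
    have hlDw' : Real.log D = 3 * Real.log w' := by
      rw [← hw'3, Real.log_pow]
      norm_num
    have h3 : Real.log D / Real.log w' = 3 := by
      rw [hlDw']; field_simp
    rw [h3] at hup
    have hVm' := hV ⌈w'⌉₊
    have hcomp : Vg g a ⌈w'⌉₊ * Real.log w' ≤ (1 + ε) * Vg g a ⌈w⌉₊ * Real.log w := by
      rcases le_or_gt ((⌈w'⌉₊ : ℝ)) w with hc1 | hc1
      · have h4 := hMer ⌈w'⌉₊ ham' w hc1 hwY
        have h5 : Real.log w' ≤ Real.log (⌈w'⌉₊ : ℝ) := Real.log_le_log hw'0 (Nat.le_ceil w')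
        rw [hVmul ⌈w'⌉₊ ⌈w⌉₊ ham' hmm]
        calc Vg g a ⌈w'⌉₊ * Real.log w' ≤ Vg g a ⌈w'⌉₊ * ((1 + ε) * Vg g ⌈w'⌉₊ ⌈w⌉₊ * Real.log w) :=
              mul_le_mul_of_nonneg_left (le_trans h5 h4) hVm'.1.le
          _ = _ := by ring
      · have h4 : ⌈w⌉₊ ≤ ⌈w'⌉₊ := Nat.ceil_le.2 hc1.le
        have h5 : ⌈w'⌉₊ = ⌈w⌉₊ := le_antisymm hmm h4
        rw [h5]
        have h6 : Real.log w' ≤ Real.log w := Real.log_le_log hw'0 hw'w
        calc Vg g a ⌈w⌉₊ * Real.log w' ≤ Vg g a ⌈w⌉₊ * Real.log w :=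
              mul_le_mul_of_nonneg_left h6 hVm.1.le
          _ ≤ (1 + ε) * Vg g a ⌈w⌉₊ * Real.log w := by
              apply mul_le_mul_of_nonneg_right _ hlw.le
              nlinarith [hVm.1]
    rw [hth]
    have h7 : Vg g a ⌈w'⌉₊ * (1 + u 3) * Real.log D ≤
        Vg g a ⌈w⌉₊ * K * Real.log w := by
      have h8 : 3 * (1 + ε) * (1 + u 3) ≤ K := by nlinarith
      calc Vg g a ⌈w'⌉₊ * (1 + u 3) * Real.log D =
            3 * (1 + u 3) * (Vg g a ⌈w'⌉₊ * Real.log w') := by rw [hlDw']; ring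
        _ ≤ 3 * (1 + u 3) * ((1 + ε) * Vg g a ⌈w⌉₊ * Real.log w) :=
              mul_le_mul_of_nonneg_left hcomp (by linarith)
        _ = (3 * (1 + ε) * (1 + u 3)) * (Vg g a ⌈w⌉₊ * Real.log w) := by ring
        _ ≤ K * (Vg g a ⌈w⌉₊ * Real.log w) :=
              mul_le_mul_of_nonneg_right h8 (mul_nonneg hVm.1.le hlw.le)
        _ = _ := by ring
    calc th a g ⌈w'⌉₊ true D ≤ Vg g a ⌈w'⌉₊ * (1 + u 3) := hup
      _ ≤ Vg g a ⌈w⌉₊ * K * Real.log w / Real.log D := by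
          rw [le_div_iff₀ hlD]; exact h7
      _ = Vg g a ⌈w⌉₊ * (K * Real.log w / Real.log D) := by ring
      _ ≤ _ := mul_le_mul_of_nonneg_left hmid hVm.1.le


theorem g_ls {u l U L : ℝ → ℝ} {K : ℝ} (hSS : SS u l U L K) (S ε : ℝ)
    (hSm : Sm u l U L S ε) {g : ℕ → ℝ} (hg : Dg g) (a : ℕ) (Y : ℝ) (ha : 3 ≤ a)
    (hMer : MerG g ε a Y) :
    ∀ D w : ℝ, (a : ℝ) ≤ w → w ≤ Y → w ≤ D →
      Real.log D ≤ S * Real.log a → UpG g u a w D ∧ (w ^ 2 ≤ D → LoG g l a w D) := by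
  have ha3 : (3 : ℝ) ≤ (a : ℝ) := by exact_mod_cast ha
  have main : ∀ m : ℕ, ∀ w D : ℝ, ⌈w⌉₊ ≤ m → (a : ℝ) ≤ w → w ≤ Y → w ≤ D →
      Real.log D ≤ S * Real.log a → UpG g u a w D ∧ (w ^ 2 ≤ D → LoG g l a w D) := by
    intro m
    induction m with
    | zero =>
      intro w D hm haw
      have h1 : w ≤ 0 := by
        have := Nat.ceil_le.1 hm
        simpa using this
      linarith
    | succ m ih =>
      intro w D hm haw hwY hwD hlog
      have hsub : ∀ p : ℕ, p.Prime → a ≤ p → ∀ w' : ℝ, w' ≤ w → (p : ℝ) < w' →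
          (p : ℝ) ^ 2 ≤ D →
          UpG g u a p (D / p) ∧ ((p : ℝ) ^ 2 ≤ D / p → LoG g l a p (D / p)) := by
        intro p hp hap w' hw' hpw hp2
        have hp0 : (0 : ℝ) < p := by exact_mod_cast hp.pos
        have hp1 : (1 : ℝ) ≤ p := by exact_mod_cast hp.one_le
        have hD0 : 0 < D := by linarith
        have h1 : p < ⌈w⌉₊ := Nat.lt_ceil.2 (lt_of_lt_of_le hpw hw')
        refine ih (p : ℝ) (D / p) ?_ (by exact_mod_cast hap) (by linarith) ?_ ?_
        · rw [Nat.ceil_natCast]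
          omega
        · rw [le_div_iff₀ hp0]
          nlinarith
        · refine le_trans ?_ hlog
          apply Real.log_le_log (by positivity)
          rw [div_le_iff₀ hp0]
          nlinarith
      have hup : ∀ w' : ℝ, (a : ℝ) ≤ w' → w' ≤ w → w' ^ 3 ≤ D → UpG g u a w' D := by
        intro w' haw' hw' hw3
        refine g_stU3 hg hSS hSm a w' D Y ha hMer haw' (hw'.trans hwY) hw3 hlog ?_
        intro p hp hap hpw
        have hp0 : (0 : ℝ) < p := by exact_mod_cast hp.pos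
        have hp1 : (1 : ℝ) ≤ p := by exact_mod_cast hp.one_le
        have h3 : (p : ℝ) ^ 3 ≤ D :=
          (pow_le_pow_left₀ hp0.le hpw.le 3).trans hw3
        have h2 : (p : ℝ) ^ 2 ≤ D :=
          (pow_le_pow_right₀ hp1 (by norm_num)).trans h3
        refine (hsub p hp hap w' hw' hpw h2).2 ?_
        rw [le_div_iff₀ hp0]
        calc (p : ℝ) ^ 2 * p = (p : ℝ) ^ 3 := by ring
          _ ≤ D := h3
      constructor
      · rcases le_or_gt (w ^ 3) D with h | h
        · exact hup w haw le_rfl h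
        · refine g_stU1 hg hSS hSm a w D Y ha hMer haw hwY hwD h ?_
          intro w' haw' hw' hw3
          exact hup w' haw' hw' hw3.le
      · intro hw2
        refine g_stL hg hSS hSm a w D Y ha hMer haw hwY hw2 hlog ?_
        intro p hp hap hpw
        have hp0 : (0 : ℝ) < p := by exact_mod_cast hp.pos
        exact (hsub p hp hap w le_rfl hpw
          ((pow_le_pow_left₀ hp0.le hpw.le 2).trans hw2)).1
  intro D w haw hwY hwD hlog
  exact main ⌈w⌉₊ w D le_rfl haw hwY hwD hlog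

/-- The upper bound for `D ≤ w ^ 3` in the form `K log w / log D`; `w ≤ D` is not needed. -/
theorem g_U1 {g : ℕ → ℝ} (hg : Dg g) {u l U L : ℝ → ℝ} {K : ℝ} (hSS : SS u l U L K) {S ε : ℝ}
    (hSm : Sm u l U L S ε) (a : ℕ) (w D Y : ℝ) (ha : 3 ≤ a) (hMer : MerG g ε a Y)
    (haw : (a : ℝ) ≤ w) (hwY : w ≤ Y) (haD : (a : ℝ) ^ 3 ≤ D) (hD3 : D ≤ w ^ 3)
    (hDS : Real.log D ≤ S * Real.log a) :
    th a g ⌈w⌉₊ true D ≤ Vg g a ⌈w⌉₊ * (K * Real.log w / Real.log D) := by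
  have hV := Vg_pos hg ha
  have hVmul := Vg_mul g a
  have ha3 : (3 : ℝ) ≤ a := by exact_mod_cast ha
  have hw3 : (3 : ℝ) ≤ w := le_trans ha3 haw
  have hlw : 0 < Real.log w := Real.log_pos (by linarith)
  have hu3 := hSS.u_pos 3 (by norm_num)
  have hK3 := hSS.K3
  have hε0 := hSm.pos
  have hε1 := hSm.le
  have hVm := hV ⌈w⌉₊
  have ham : a ≤ ⌈w⌉₊ := by
    have h1 : (a : ℝ) ≤ (⌈w⌉₊ : ℝ) := le_trans haw (Nat.le_ceil w)
    exact_mod_cast h1
  have ha27 : (27 : ℝ) ≤ (a : ℝ) ^ 3 := by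
    calc (27 : ℝ) = 3 ^ 3 := by norm_num
      _ ≤ (a : ℝ) ^ 3 := pow_le_pow_left₀ (by norm_num) ha3 3
  have hD0 : 0 < D := by linarith
  have hlD : 0 < Real.log D := Real.log_pos (by linarith)
  have hw'0 : 0 < D ^ (1 / 3 : ℝ) := Real.rpow_pos_of_pos hD0 _
  have hw'3 : (D ^ (1 / 3 : ℝ)) ^ 3 = D := by
    rw [← Real.rpow_natCast, ← Real.rpow_mul hD0.le]
    norm_num
  generalize D ^ (1 / 3 : ℝ) = w' at hw'0 hw'3
  have haw' : (a : ℝ) ≤ w' := by
    by_contra hlt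
    push Not at hlt
    have : w' ^ 3 < (a : ℝ) ^ 3 := pow_lt_pow_left₀ hlt hw'0.le (by norm_num)
    linarith
  have hw'w : w' ≤ w := by
    by_contra hlt
    push Not at hlt
    have : w ^ 3 < w' ^ 3 := pow_lt_pow_left₀ hlt (by linarith) (by norm_num)
    linarith
  have hmm : ⌈w'⌉₊ ≤ ⌈w⌉₊ := Nat.ceil_mono hw'w
  have ham' : a ≤ ⌈w'⌉₊ := by
    have h1 : (a : ℝ) ≤ (⌈w'⌉₊ : ℝ) := le_trans haw' (Nat.le_ceil w')
    exact_mod_cast h1
  have hth : th a g ⌈w⌉₊ true D = th a g ⌈w'⌉₊ true D := by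
    apply g_stU1_case2 g a _ _ D hmm
    intro p hp
    rw [← hw'3]
    apply pow_le_pow_left₀ hw'0.le
    exact Nat.ceil_le.1 hp
  have hw'3' : (3 : ℝ) ≤ w' := le_trans ha3 haw'
  have hw'D : w' ≤ D := by
    rw [← hw'3]
    calc w' = w' ^ 1 := (pow_one _).symm
      _ ≤ w' ^ 3 := pow_le_pow_right₀ (by linarith) (by norm_num)
  have hup := (g_ls hSS S ε hSm hg a Y ha hMer D w' haw' (hw'w.trans hwY) hw'D hDS).1
  unfold UpG at hup
  have hlw' : 0 < Real.log w' := Real.log_pos (by linarith)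
  have hlDw' : Real.log D = 3 * Real.log w' := by
    rw [← hw'3, Real.log_pow]
    norm_num
  have h3 : Real.log D / Real.log w' = 3 := by
    rw [hlDw']; field_simp
  rw [h3] at hup
  have hVm' := hV ⌈w'⌉₊
  have hcomp : Vg g a ⌈w'⌉₊ * Real.log w' ≤ (1 + ε) * Vg g a ⌈w⌉₊ * Real.log w := by
    rcases le_or_gt ((⌈w'⌉₊ : ℝ)) w with hc1 | hc1
    · have h4 := hMer ⌈w'⌉₊ ham' w hc1 hwY
      have h5 : Real.log w' ≤ Real.log (⌈w'⌉₊ : ℝ) := Real.log_le_log hw'0 (Nat.le_ceil w')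
      rw [hVmul ⌈w'⌉₊ ⌈w⌉₊ ham' hmm]
      calc Vg g a ⌈w'⌉₊ * Real.log w' ≤ Vg g a ⌈w'⌉₊ * ((1 + ε) * Vg g ⌈w'⌉₊ ⌈w⌉₊ * Real.log w) :=
            mul_le_mul_of_nonneg_left (le_trans h5 h4) hVm'.1.le
        _ = _ := by ring
    · have h4 : ⌈w⌉₊ ≤ ⌈w'⌉₊ := Nat.ceil_le.2 hc1.le
      have h5 : ⌈w'⌉₊ = ⌈w⌉₊ := le_antisymm hmm h4
      rw [h5]
      have h6 : Real.log w' ≤ Real.log w := Real.log_le_log hw'0 hw'w
      calc Vg g a ⌈w⌉₊ * Real.log w' ≤ Vg g a ⌈w⌉₊ * Real.log w :=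
            mul_le_mul_of_nonneg_left h6 hVm.1.le
        _ ≤ (1 + ε) * Vg g a ⌈w⌉₊ * Real.log w := by
            apply mul_le_mul_of_nonneg_right _ hlw.le
            nlinarith [hVm.1]
  rw [hth]
  have h7 : Vg g a ⌈w'⌉₊ * (1 + u 3) * Real.log D ≤ Vg g a ⌈w⌉₊ * K * Real.log w := by
    have h8 : 3 * (1 + ε) * (1 + u 3) ≤ K := by nlinarith
    calc Vg g a ⌈w'⌉₊ * (1 + u 3) * Real.log D =
          3 * (1 + u 3) * (Vg g a ⌈w'⌉₊ * Real.log w') := by rw [hlDw']; ring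
      _ ≤ 3 * (1 + u 3) * ((1 + ε) * Vg g a ⌈w⌉₊ * Real.log w) :=
            mul_le_mul_of_nonneg_left hcomp (by linarith)
      _ = (3 * (1 + ε) * (1 + u 3)) * (Vg g a ⌈w⌉₊ * Real.log w) := by ring
      _ ≤ K * (Vg g a ⌈w⌉₊ * Real.log w) :=
            mul_le_mul_of_nonneg_right h8 (mul_nonneg hVm.1.le hlw.le)
      _ = _ := by ring
  calc th a g ⌈w'⌉₊ true D ≤ Vg g a ⌈w'⌉₊ * (1 + u 3) := hup
    _ ≤ Vg g a ⌈w⌉₊ * K * Real.log w / Real.log D := by
        rw [le_div_iff₀ hlD]; exact h7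
    _ = Vg g a ⌈w⌉₊ * (K * Real.log w / Real.log D) := by ring

end Pool.Agent.PSq
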