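import Pool.Agent.Lib.MP_6b8fc7_nt.G.Defs
import Pool.Agent.Lib.MP_d610d0_nt.CH.S.P.ss

set_option autoImplicit false

/-!
# Values of the supersolution of `Lib/MP_d610d0_nt/CH/S/P/ss.lean`
-/

namespace Pool.Agent.PSq

open Finset
open Pool.Agent.CH.S

/-- The supersolution with the constant `3.665292` and its values at `4`. -/
theorem g_ss : ∃ (u l U L : ℝ → ℝ) (K : ℝ), SS u l U L K ∧ K ≤ 3.6653 ∧ 3.66 ≤ K ∧
    u 4 ≤ 0.2 ∧ l 4 ≤ 0.0279 := by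
  refine ⟨cs_ss_F cs_ss_u, cs_ss_F cs_ss_l, cs_ss_G cs_ss_u cs_ss_U, cs_ss_G cs_ss_l cs_ss_L,
    3665292 / 10 ^ 6, ?_, by norm_num, by norm_num, ?_, ?_⟩
  · constructor
    · intro x y hx hxy
      exact cs_ss_Su.F_anti x y (by norm_num; exact hx) hxy
    · intro x y hx hxy
      exact cs_ss_Sl.F_anti x y (by norm_num; exact hx) hxy
    · intro x hx
      exact cs_ss_Su.pos _ (cs_ss_le_fl (by norm_num; exact hx))
    · intro x hx
      exact cs_ss_Sl.pos _ (cs_ss_le_fl (by norm_num; exact hx))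
    · intro x y hx hxy
      exact cs_ss_Su.G_int x y (by norm_num; exact hx) hxy
    · intro x y hx hxy
      exact cs_ss_Sl.G_int x y (by norm_num; exact hx) hxy
    · intro x hx
      exact cs_ss_Su.G_nn x (by norm_num; exact hx)
    · intro x hx
      exact cs_ss_Sl.G_nn x (by norm_num; exact hx)
    · intro s hs
      have h1 := cs_ss_Su.G_le (s - 1) (by norm_num; linarith)
      rw [cs_ss_fl_sub] at h1
      have h2 := cs_ss_low ⌊50 * s⌋₊ (cs_ss_le_fl (by norm_num; exact hs))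
      obtain ⟨h3, h4⟩ := cs_ss_fl (show 0 ≤ s by linarith)
      have h5 := cs_ss_Sl.pos ⌊50 * s⌋₊ (cs_ss_le_fl (by norm_num; exact hs))
      have h6 : ((⌊50 * s⌋₊ : ℕ) : ℝ) / 50 * cs_ss_l ⌊50 * s⌋₊ ≤ s * cs_ss_l ⌊50 * s⌋₊ :=
        mul_le_mul_of_nonneg_right (by linarith) h5.le
      change _ ≤ s * cs_ss_l ⌊50 * s⌋₊
      linarith
    · intro s hs
      have h1 := cs_ss_Sl.G_le (s - 1) (by norm_num; linarith)
      rw [cs_ss_fl_sub] at h1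
      have h2 := cs_ss_up ⌊50 * s⌋₊ (cs_ss_le_fl (by norm_num; exact hs))
      obtain ⟨h3, h4⟩ := cs_ss_fl (show 0 ≤ s by linarith)
      have h5 := cs_ss_Su.pos ⌊50 * s⌋₊ (cs_ss_le_fl (by norm_num; linarith))
      have h6 : ((⌊50 * s⌋₊ : ℕ) : ℝ) / 50 * cs_ss_u ⌊50 * s⌋₊ ≤ s * cs_ss_u ⌊50 * s⌋₊ :=
        mul_le_mul_of_nonneg_right (by linarith) h5.le
      change _ ≤ s * cs_ss_u ⌊50 * s⌋₊
      linarith
    · intro s hs1 hs3
      have h50 : 50 ≤ ⌊50 * s⌋₊ := cs_ss_le_fl (by norm_num; exact hs1)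
      have h150 : ⌊50 * s⌋₊ < 150 := by
        rw [Nat.floor_lt (by linarith)]; push_cast; linarith
      obtain ⟨h3, h4⟩ := cs_ss_fl (show 0 ≤ s by linarith)
      change _ ≤ 1 + cs_ss_u ⌊50 * s⌋₊
      unfold cs_ss_u
      rw [if_pos (by omega)]
      have h2 := cs_ss_c13 (⌊50 * s⌋₊ - 50) (by omega)
      rw [show ⌊50 * s⌋₊ - 50 + 50 = ⌊50 * s⌋₊ by omega] at h2
      have h5 : (3665292 : ℝ) * 50 ≤ ((⌊50 * s⌋₊ : ℕ) : ℝ)
          * (10 ^ 6 + ((cs_ss_tu.getD (⌊50 * s⌋₊ - 50) 0 : ℕ) : ℝ)) := by exact_mod_cast h2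
      rw [div_le_iff₀ (by linarith)]
      have h6 : ((⌊50 * s⌋₊ : ℕ) : ℝ) * (10 ^ 6 + ((cs_ss_tu.getD (⌊50 * s⌋₊ - 50) 0 : ℕ) : ℝ))
          ≤ 50 * s * (10 ^ 6 + ((cs_ss_tu.getD (⌊50 * s⌋₊ - 50) 0 : ℕ) : ℝ)) :=
        mul_le_mul_of_nonneg_right h3 (by positivity)
      have e : (1 + ((cs_ss_tu.getD (⌊50 * s⌋₊ - 50) 0 : ℕ) : ℝ) / 10 ^ 6) * s
          = (50 * s * (10 ^ 6 + ((cs_ss_tu.getD (⌊50 * s⌋₊ - 50) 0 : ℕ) : ℝ))) / (50 * 10 ^ 6) := by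
        ring
      rw [e]
      linarith
    · have hf : ⌊50 * (3 : ℝ)⌋₊ = 150 := by norm_num
      change 3 * (1 + 1 / 200) * (1 + cs_ss_u ⌊50 * (3 : ℝ)⌋₊) ≤ _
      rw [hf]
      unfold cs_ss_u
      rw [if_pos (by norm_num)]
      have h1 := cs_ss_c14
      have h2 : (3 : ℝ) * 201 * (10 ^ 6 + ((cs_ss_tu.getD (150 - 50) 0 : ℕ) : ℝ)) ≤ 200 * 3665292 := by
        exact_mod_cast h1
      linarith
  · have hf : ⌊50 * (4 : ℝ)⌋₊ = 200 := by norm_num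
    change cs_ss_u ⌊50 * (4 : ℝ)⌋₊ ≤ _
    rw [hf]
    unfold cs_ss_u
    rw [if_pos (by norm_num)]
    have h2 : (cs_ss_tu.getD (200 - 50) 0 : ℕ) ≤ 200000 := by decide
    have h3 : ((cs_ss_tu.getD (200 - 50) 0 : ℕ) : ℝ) ≤ 200000 := by exact_mod_cast h2
    rw [show (0.2 : ℝ) = 200000 / 10 ^ 6 by norm_num]
    exact div_le_div_of_nonneg_right h3 (by norm_num)
  · have hf : ⌊50 * (4 : ℝ)⌋₊ = 200 := by norm_num
    change cs_ss_l ⌊50 * (4 : ℝ)⌋₊ ≤ _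
    rw [hf]
    unfold cs_ss_l
    rw [if_pos (by norm_num)]
    have h2 : (cs_ss_tl.getD (200 - 100) 0 : ℕ) ≤ 27900 := by decide
    have h3 : ((cs_ss_tl.getD (200 - 100) 0 : ℕ) : ℝ) ≤ 27900 := by exact_mod_cast h2
    rw [show (0.0279 : ℝ) = 27900 / 10 ^ 6 by norm_num]
    exact div_le_div_of_nonneg_right h3 (by norm_num)

end Pool.Agent.PSq
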